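import Pool.Agent.W617.LG.StmI

/-!
# Surjectivity of `Z_κ(y) = N^κ(y) y`
-/

set_option autoImplicit false
open Topology Filter Set
open scoped ContDiff InnerProductSpace

namespace Pool.Agent.W196.LG

open Pool.Agent.W617.LG

lemma unit_ne {q : ℕ} {T : E q →L[ℝ] E q} (hT : IsUnit T) {v : E q} (hv : v ≠ 0) : T v ≠ 0 := by
  intro h
  apply hv
  obtain ⟨u, rfl⟩ := hT
  have h1 : ((↑u⁻¹ : E q →L[ℝ] E q) * (u : E q →L[ℝ] E q)) v = v := by
    rw [Units.inv_mul]; rfl
  rw [← h1]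
  show (↑u⁻¹ : E q →L[ℝ] E q) ((u : E q →L[ℝ] E q) v) = 0
  rw [h, map_zero]

lemma contN {q : ℕ} {M : TF q} {N : ℝ → E q → (E q →L[ℝ] E q)} (hN : NF q M N) (κ : ℝ) {y : E q}
    (hy : y ≠ 0) : ContinuousAt (N κ) y := by
  have hop : IsOpen {p : ℝ × E q | p.2 ≠ 0} := isOpen_ne_fun continuous_snd continuous_const
  have h1 : ContinuousAt (fun p : ℝ × E q => N p.1 p.2) (κ, y) :=
    hN.cont.continuousAt (hop.mem_nhds hy)
  have h2 : ContinuousAt (fun y : E q => (κ, y)) y := by fun_prop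
  exact ContinuousAt.comp (f := fun y : E q => (κ, y)) (g := fun p : ℝ × E q => N p.1 p.2) h1 h2

lemma derZ {q : ℕ} {G : E q → E q →L[ℝ] E q} {M : TF q} {N : ℝ → E q → (E q →L[ℝ] E q)}
    (hG : HD q G M) (hN : NF q M N) (κ : ℝ) {y : E q} (hy : y ≠ 0) :
    HasFDerivAt (fun y => N κ y y) (N κ y) y := by
  have h1 := (hN.der κ y hy).clm_apply (hasFDerivAt_id y)
  refine h1.congr_fderiv ?_
  ext v
  have h2 : M y v y = 0 := by
    rw [hG.M12 y hy v y, hG.Mrad y hy]
    rfl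
  simp [h2]

theorem t_SUR : S_SUR := by
  intro q G M N hG hN κ
  set Z : E q → E q := fun y => N κ y y with hZ
  have hZne : ∀ y, y ≠ 0 → Z y ≠ 0 := fun y hy => unit_ne (hN.unit κ y hy) hy
  have hZhom : ∀ y, y ≠ 0 → ∀ r : ℝ, 0 < r → Z (r • y) = r • Z y := by
    intro y hy r hr
    show N κ (r • y) (r • y) = r • N κ y y
    rw [hN.hom κ y hy r hr, map_smul]
  -- the image is open
  set S : Set (E q) := Z '' {0}ᶜ with hS
  have hopen : IsOpen S := by
    rw [isOpen_iff_mem_nhds]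
    rintro _ ⟨y, hy, rfl⟩
    have hy' : y ≠ 0 := hy
    have hev : ∀ᶠ y' in 𝓝 y, HasFDerivAt Z (N κ y') y' := by
      filter_upwards [isOpen_compl_singleton.mem_nhds hy] with y' hy'
      exact derZ hG hN κ hy'
    have hst : HasStrictFDerivAt Z (N κ y) y :=
      hasStrictFDerivAt_of_hasFDerivAt_of_continuousAt hev (contN hN κ hy')
    obtain ⟨u, hu⟩ := hN.unit κ y hy'
    have he : ((ContinuousLinearEquiv.unitsEquiv ℝ (E q) u : E q ≃L[ℝ] E q) : E q →L[ℝ] E q) = N κ y := by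
      rw [← hu]
      ext v
      rfl
    rw [← he] at hst
    rw [← hst.map_nhds_eq_of_equiv]
    exact image_mem_map (isOpen_compl_singleton.mem_nhds hy)
  -- the image is closed in the complement of zero
  set K : Set (E q) := (fun u : E q => ‖Z u‖⁻¹ • Z u) '' Metric.sphere (0 : E q) 1 with hK
  have hsph : ∀ u : E q, u ∈ Metric.sphere (0 : E q) 1 → u ≠ 0 := by
    intro u hu h0
    rw [h0] at hu
    simp at hu
  have hZc : ∀ y, y ≠ 0 → ContinuousAt Z y := fun y hy => (derZ hG hN κ hy).continuousAt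
  have hKc : IsClosed K := by
    apply IsCompact.isClosed
    apply (isCompact_sphere (0 : E q) 1).image_of_continuousOn
    intro u hu
    have hu0 := hsph u hu
    apply ContinuousAt.continuousWithinAt
    exact ((hZc u hu0).norm.inv₀ (norm_ne_zero_iff.2 (hZne u hu0))).smul (hZc u hu0)
  have hSK : ∀ x, x ≠ 0 → (x ∈ S ↔ ‖x‖⁻¹ • x ∈ K) := by
    intro x hx
    constructor
    · rintro ⟨y, hy, rfl⟩
      have hy' : y ≠ 0 := hy
      have hny : 0 < ‖y‖ := norm_pos_iff.2 hy'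
      refine ⟨‖y‖⁻¹ • y, ?_, ?_⟩
      · simp [norm_smul, hny.ne']
      · simp only
        rw [hZhom y hy' _ (inv_pos.2 hny), norm_smul, norm_inv, norm_norm, mul_inv, inv_inv,
          smul_smul]
        congr 1
        field_simp
    · rintro ⟨u, hu, hux⟩
      have hu0 := hsph u hu
      have h1 : 0 < ‖Z u‖ := norm_pos_iff.2 (hZne u hu0)
      have h2 : 0 < ‖x‖ := norm_pos_iff.2 hx
      have h3 : 0 < ‖x‖ * ‖Z u‖⁻¹ := by positivity
      refine ⟨(‖x‖ * ‖Z u‖⁻¹) • u, ?_, ?_⟩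
      · show (‖x‖ * ‖Z u‖⁻¹) • u ≠ 0
        exact smul_ne_zero h3.ne' hu0
      · rw [hZhom u hu0 _ h3]
        simp only at hux
        rw [mul_smul, hux, smul_smul, mul_inv_cancel₀ h2.ne', one_smul]
  have hrank : 1 < Module.rank ℝ (E q) := by
    rw [← Module.finrank_eq_rank, finrank_euclideanSpace, Fintype.card_fin]
    have h1 : (1 : ℕ) < q + 2 := by omega
    exact_mod_cast h1
  have hconn := (isConnected_compl_singleton_of_one_lt_rank hrank (0 : E q)).isPreconnected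
  have hsub : ({0}ᶜ : Set (E q)) ⊆ S := by
    apply hconn.subset_of_closure_inter_subset hopen
    · obtain ⟨y, hy⟩ := exists_ne (0 : E q)
      exact ⟨Z y, hZne y hy, y, hy, rfl⟩
    · rintro x ⟨hx1, hx2⟩
      have hx : x ≠ 0 := hx2
      rw [hSK x hx]
      rw [← hKc.closure_eq]
      have hc : ContinuousAt (fun x : E q => ‖x‖⁻¹ • x) x :=
        (continuousAt_id.norm.inv₀ (norm_ne_zero_iff.2 hx)).smul continuousAt_id
      have h4 := mem_closure_image hc hx1
      refine closure_mono ?_ h4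
      rintro _ ⟨x', hx', rfl⟩
      have hx'0 : x' ≠ 0 := by
        obtain ⟨y, hy, rfl⟩ := hx'
        exact hZne y hy
      exact (hSK x' hx'0).1 hx'
  intro x hx
  obtain ⟨y, hy, hyx⟩ := hsub hx
  exact ⟨y, hy, hyx⟩

end Pool.Agent.W196.LG
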